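import Pool.Agent.L0h1.KD.Rank
import Pool.Agent.L0h4.TA.Dens
import Pool.Agent.L0h4.TC.Fin

/-!
# The rank form of the conjecture for an exactly known proportion of all the twists of `X_0(49)` by the
# positive squarefree `D ≡ 1 mod 4` prime to `7`

`D ≥ 1` is any squarefree number `≡ 1 mod 4` with `7 ∤ D`, and `E_D` is the quadratic twist by `D` of
`X_0(49) : y² + x y = x³ - x² - 2 x - 1`, with the short equation `y² = x³ - 35 D² x - 98 D³`. The
theorem says:
* the group `E_D(ℚ)` is finite and `Ш(E_D/ℚ)` has no element of order two if and only if the square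
  matrix `mat D` over `𝔽₂` of the quadratic residue symbols between the normalised prime elements of
  `ℤ[(1 + √-7) / 2]` which divide `D` is not singular;
* in this case the order of `L(E_D, s)` at `s = 1` and the rank are both `0`, in the form of the
  frozen statement of the problem;
* the proportion of these `D` among all the positive squarefree `D ≡ 1 mod 4` prime to `7` is exactly
  `(1/2) ∏_{i ≥ 0} (1 - 2^{-(2i+1)}) = 0.2097...`.

The value `L(E_D, 1)` is computed modulo the powers of two, so that no converse theorem of Iwasawa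
theory is used. Proof: `Pool/Agent/L0h4/TW`, `Pool/Agent/L0h4/TA` (the value `L(E_D, 1)`),
`Pool/Agent/L0h4/TD` (2-descent over `K`), `Pool/Agent/L0h4/TC` and `Pool/Agent/L0h23/SZ` (a kernel
vector of the matrix gives an everywhere locally soluble 2-covering), `Pool/Agent/L0h1/KD` and
`Pool/Agent/L0h74/KD` (the density). Joint work of helpers 1, 4, 23, 74, 75, 98.
-/

set_option autoImplicit false

open scoped Classical

namespace Pool.Agent.Results.MP_696deb_nt.TwistsX49ExactProportion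

/-- the conclusion of the frozen statement for `y² = x³ + a x + b`, together with the fact that the
order of vanishing and the rank are both `0` -/
def BSDRankZero (a b : ℤ) : Prop :=
  4 * a ^ 3 + 27 * b ^ 2 ≠ 0 ∧
    ∃ F : ℂ → ℂ, Differentiable ℂ F ∧
      (∀ s : ℂ, (3 : ℝ) / 2 < s.re →
        HasProd
          (fun p : ℕ => open Classical in
            if p.Prime ∧ ¬ ((p : ℤ) ∣ 2 * (-4 * a ^ 3 - 27 * b ^ 2)) then
              (1 - ((p : ℂ) - (Nat.card {q : ZMod p × ZMod p //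
                  q.2 ^ 2 = q.1 ^ 3 + (a : ZMod p) * q.1 + (b : ZMod p)} : ℂ))
                  * (p : ℂ) ^ (-s) + (p : ℂ) ^ (1 - 2 * s))⁻¹
            else 1)
          (F s)) ∧
      analyticOrderAt F 1 =
        ((Module.finrank ℤ
          (WeierstrassCurve.Affine.Point
            (WeierstrassCurve.toAffine
              ({ a₁ := 0, a₂ := 0, a₃ := 0, a₄ := (a : ℚ), a₆ := (b : ℚ) } :
                WeierstrassCurve ℚ))) : ℕ) : ℕ∞) ∧
      Module.finrank ℤ
        (WeierstrassCurve.Affine.Point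
          (WeierstrassCurve.toAffine
            ({ a₁ := 0, a₂ := 0, a₃ := 0, a₄ := (a : ℚ), a₆ := (b : ℚ) } :
              WeierstrassCurve ℚ))) = 0

/-- `D` is squarefree, `≡ 1 mod 4` and prime to `7`. -/
def Adm (D : ℕ) : Prop := Squarefree D ∧ D % 4 = 1 ∧ ¬ 7 ∣ D

/-- The quadratic twist over `ℚ` by `D ≡ 1 mod 4` of `X_0(49) : y² + x y = x³ - x² - 2 x - 1`. -/
def E (D : ℕ) : WeierstrassCurve ℚ :=
  { a₁ := 1, a₂ := -(3 * (D : ℚ) + 1) / 4, a₃ := 0, a₄ := -2 * (D : ℚ) ^ 2, a₆ := -(D : ℚ) ^ 3 }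

/-- `E_D(ℚ)` is finite and `Ш(E_D/ℚ)[2] = 0`. -/
def TrivialTwo (D : ℕ) : Prop :=
  Finite (E D).toAffine.Point ∧ ∀ x : Pool.Agent.TH841.NF.D.Sha (E D), x + x = 0 → x = 0

/-- The complex number `(1 + √-7) / 2`. -/
noncomputable def al : ℂ := (1 + Complex.I * (Real.sqrt 7 : ℂ)) / 2

/-- The ring `ℤ[α]`, `α = (1 + √-7) / 2`, of the integers of `K = ℚ(√-7)`, as a subring of `ℂ`: its
elements are the numbers `x + y α`, `x, y ∈ ℤ` (see `mem_O`). -/
noncomputable abbrev O : Subring ℂ := Pool.Agent.Y698.RR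

lemma mem_O (z : ℂ) : z ∈ O ↔ ∃ x y : ℤ, z = x + y * al := Pool.Agent.Y698.mem_RR z

/-- The element `α = (1 + √-7) / 2` of `ℤ[α]`. -/
noncomputable def α : O := ⟨al, (mem_O al).2 ⟨0, 1, by push_cast; ring⟩⟩

/-- The element `√-7 = 2 α - 1` of `ℤ[α]`. -/
noncomputable def rt : O := 2 * α - 1

/-- The normalised prime elements which divide `D`: one generator `π` of every prime ideal of `ℤ[α]`
which divides `D`, the one with `π ≡ 1` modulo `α²`. -/
def primes (D : ℕ) : Set O := {π | D ≠ 0 ∧ Prime π ∧ π ∣ (D : O) ∧ α ^ 2 ∣ π - 1}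

noncomputable instance (D : ℕ) : Fintype (primes D) := Pool.Agent.L0h4.TA.inst_pset D

/-- `1` if `x` is not a square modulo `y`, and `0` if it is. -/
noncomputable def nonsq (x y : O) : ZMod 2 := if ∃ z : O, y ∣ x - z ^ 2 then 0 else 1

/-- The matrix over the field with two elements, with rows and columns indexed by the normalised prime
elements which divide `D`: the entry at `(i, j)` is `nonsq i j` for `i ≠ j`, and the entry at `(i, i)` is
the sum of `nonsq i √-7` and of the `nonsq i l` for all the `l ≠ i`. -/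
noncomputable def mat (D : ℕ) : Matrix (primes D) (primes D) (ZMod 2) := Matrix.of fun i j =>
  if i = j then nonsq i rt + ∑ l ∈ Finset.univ.erase i, nonsq i l else nonsq i j

lemma mat_eq (D : ℕ) : mat D = Pool.Agent.L0h4.TA.mD D := rfl

lemma adm_eq {D : ℕ} (h : Adm D) : Pool.Agent.L0h4.TA.Adm D := ⟨h.1, h.2.1, h.2.2⟩

lemma E_eq {D j : ℕ} (hj : D = 1 + 4 * j) : E D = Pool.Agent.Y698.AX ℚ j := by
  unfold E Pool.Agent.Y698.AX Pool.Agent.Y698.EX
  rw [hj]
  push_cast
  congr 1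
  ring

theorem two_iff {D : ℕ} (h : Adm D) : TrivialTwo D ↔ (mat D).det ≠ 0 := by
  have hA := adm_eq h
  obtain ⟨j, hj'⟩ : ∃ j, D = 1 + 4 * j := ⟨D / 4, by have := h.2.1; omega⟩
  obtain ⟨-, -, -, c4, -⟩ := Pool.Agent.L0h4.TA.coreX hA hj'
  rw [mat_eq]
  unfold TrivialTwo
  rw [E_eq hj']
  constructor
  · rintro ⟨hf, hs⟩
    obtain ⟨ϖ, hc⟩ := Pool.Agent.L0h4.TA.exists_choice hA.p
    have hd := hA.dt hc
    intro hdet
    have hns : ¬ Pool.Agent.L0h4.TW.NonSing (Pool.Agent.L0h4.TA.QD D) (Pool.Agent.L0h4.TA.PD D) ϖ := by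
      rw [Pool.Agent.L0h4.TA.ns_iff hd hA.prod]
      exact fun h4 => h4 hdet
    obtain ⟨x, hx0, hx2⟩ := Pool.Agent.L0h4.TC.conv hd hns (hA.prod.trans hj') hf
    exact hx0 (hs x hx2)
  · intro h4
    exact ⟨(c4 h4).1, fun x hx => (c4 h4).2 1 x (by rw [pow_one, two_nsmul]; exact hx)⟩

theorem bsd {D : ℕ} (h : Adm D) (hdet : (mat D).det ≠ 0) :
    BSDRankZero (-35 * (D : ℤ) ^ 2) (-98 * (D : ℤ) ^ 3) := by
  have hA := adm_eq h
  rw [mat_eq] at hdet
  obtain ⟨F, h1, h2, h3, h4⟩ := Pool.Agent.L0h1.KD.rank_form hA hdet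
  have h5 := Pool.Agent.L0h1.KD.finrank_zero h4
  have hD0 : (D : ℤ) ≠ 0 := by exact_mod_cast h.1.ne_zero
  refine ⟨?_, F, h1, ?_, ?_, h5⟩
  · have e : (4 * (-35 * (D : ℤ) ^ 2) ^ 3 + 27 * (-98 * (D : ℤ) ^ 3) ^ 2 : ℤ) =
        87808 * (D : ℤ) ^ 6 := by ring
    rw [e]
    exact mul_ne_zero (by norm_num) (pow_ne_zero _ hD0)
  · intro s hs
    have := h2 s hs
    unfold Pool.Agent.L0h1.KD.tg at this
    exact this
  · rw [h5, (h1.analyticAt 1).analyticOrderAt_eq_zero.2 h3]
    rfl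

/-- **The rank form of the conjecture of Birch and Swinnerton-Dyer for an exactly known proportion of
the quadratic twists of `X_0(49)`.** -/
theorem result :
    (∀ D : ℕ, Adm D → (TrivialTwo D ↔ (mat D).det ≠ 0)) ∧
    (∀ D : ℕ, Adm D → TrivialTwo D → BSDRankZero (-35 * (D : ℤ) ^ 2) (-98 * (D : ℤ) ^ 3)) ∧
    Filter.Tendsto (fun X : ℕ =>
        (((Finset.Icc 1 X).filter fun D => Adm D ∧ TrivialTwo D).card : ℝ) /
        (((Finset.Icc 1 X).filter fun D => Adm D).card : ℝ)) Filter.atTop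
      (nhds ((∏' i : ℕ, (1 - (1 / 2 : ℝ) ^ (2 * i + 1))) / 2)) := by
  refine ⟨fun D h => two_iff h, fun D h h2 => bsd h ((two_iff h).1 h2), ?_⟩
  refine Pool.Agent.L0h4.TA.dens.congr fun X => congrArg₂ (fun a b : ℕ => (a : ℝ) / (b : ℝ)) ?_ ?_
  · refine congrArg Finset.card (Finset.ext fun D => ?_)
    rw [Finset.mem_filter, Finset.mem_filter]
    refine and_congr_right fun _ => ?_
    constructor
    · rintro ⟨h1, h2⟩
      have h3 : Adm D := ⟨h1.sf, h1.m4, h1.n7⟩
      rw [← mat_eq] at h2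
      exact ⟨h3, (two_iff h3).2 h2⟩
    · rintro ⟨h1, h2⟩
      have h3 := (two_iff h1).1 h2
      rw [mat_eq] at h3
      exact ⟨adm_eq h1, h3⟩
  · refine congrArg Finset.card (Finset.ext fun D => ?_)
    rw [Finset.mem_filter, Finset.mem_filter]
    exact and_congr_right fun _ => ⟨fun h1 => ⟨h1.sf, h1.m4, h1.n7⟩, fun h1 => adm_eq h1⟩

end Pool.Agent.Results.MP_696deb_nt.TwistsX49ExactProportion
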